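import Pool.Agent.Y158.KL.Lam

/-!
# The closure of `ℚ` in the completion of `ℚ(ζ_ℓ)` at the prime above `ℓ`
-/

set_option autoImplicit false
set_option linter.all false

namespace Pool.Agent.Y678.FQ

open NumberField IsDedekindDomain WithZero Polynomial Pool.Agent.Y158.KL

/-- the closure of `ℚ` in the completion -/
noncomputable def Qc {K : Type} [Field K] [NumberField K] (v : HeightOneSpectrum (𝓞 K)) :
    Subfield (v.adicCompletion K) :=
  (algebraMap ℚ (v.adicCompletion K)).fieldRange.topologicalClosure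

variable {K : Type} [Field K] [NumberField K] {ℓ : ℕ} [hp : Fact ℓ.Prime]
  [hK : IsCyclotomicExtension {ℓ} ℚ K] {ζ : K} (hζ : IsPrimitiveRoot ζ ℓ)

/-- integers prime to `ℓ` are units -/
lemma V_cop {m : ℤ} (h : ¬ (ℓ : ℤ) ∣ m) : V hζ (m : Kl hζ) = 1 := by
  have h1 : IsCoprime (ℓ : ℤ) m :=
    (Prime.coprime_iff_not_dvd (Nat.prime_iff_prime_int.1 hp.out)).2 h
  obtain ⟨a, b, hab⟩ := h1
  refine le_antisymm (V_intCast hζ m) ?_
  by_contra hlt
  push Not at hlt
  have e : ((a : Kl hζ)) * (ℓ : Kl hζ) + (b : Kl hζ) * (m : Kl hζ) = 1 := by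
    have := congrArg (fun z : ℤ => (z : Kl hζ)) hab
    push_cast at this
    exact this
  have hl : V hζ (ℓ : Kl hζ) < 1 := by
    rw [V_ell, ← exp_zero, exp_lt_exp]
    have := hp.out.two_le
    omega
  have h2 : V hζ ((a : Kl hζ) * (ℓ : Kl hζ)) < 1 := by
    rw [map_mul]
    exact lt_of_le_of_lt (mul_le_of_le_one_left zero_le (V_intCast hζ a)) hl
  have h3 : V hζ ((b : Kl hζ) * (m : Kl hζ)) < 1 := by
    rw [map_mul]
    exact lt_of_le_of_lt (mul_le_of_le_one_left zero_le (V_intCast hζ b)) hlt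
  have h4 := Valuation.map_add_lt (V hζ) h2 h3
  rw [e, map_one] at h4
  exact lt_irrefl _ h4

lemma V_nat {n : ℕ} (hn : n ≠ 0) : ∃ k : ℤ, V hζ (n : Kl hζ) = exp (k * ((ℓ - 1 : ℕ) : ℤ)) := by
  obtain ⟨e, m, hm, rfl⟩ := Nat.exists_eq_pow_mul_and_not_dvd hn ℓ hp.out.ne_one
  refine ⟨-(e : ℤ), ?_⟩
  have h1 : V hζ ((m : ℤ) : Kl hζ) = 1 := V_cop hζ (by exact_mod_cast hm)
  push_cast at h1
  push_cast
  rw [map_mul, map_pow, h1, mul_one, V_ell, exp_pow]
  congr 1
  ring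

lemma V_rat {q : ℚ} (hq : q ≠ 0) :
    ∃ k : ℤ, V hζ (algebraMap ℚ (Kl hζ) q) = exp (k * ((ℓ - 1 : ℕ) : ℤ)) := by
  obtain ⟨a, ha⟩ := V_nat hζ (n := q.num.natAbs) (by
    rw [Ne, Int.natAbs_eq_zero]
    exact Rat.num_ne_zero.2 hq)
  obtain ⟨b, hb⟩ := V_nat hζ (n := q.den) q.den_nz
  refine ⟨a - b, ?_⟩
  have h1 : V hζ (q.num : Kl hζ) = exp (a * ((ℓ - 1 : ℕ) : ℤ)) := by
    rw [← ha]
    rcases Int.natAbs_eq q.num with h | h
    · conv_lhs => rw [h, Int.cast_natCast]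
    · conv_lhs => rw [h, Int.cast_neg, Int.cast_natCast, Valuation.map_neg]
  have h2 : algebraMap ℚ (Kl hζ) q = (q.num : Kl hζ) / (q.den : Kl hζ) := by
    conv_lhs => rw [← Rat.num_div_den q]
    rw [map_div₀, map_intCast, map_natCast]
  rw [h2, map_div₀, h1, hb, ← exp_sub]
  congr 1
  ring

lemma V_L {z : Kl hζ} (hz : z ∈ Qc (lam hζ)) (hz0 : z ≠ 0) :
    ∃ k : ℤ, V hζ z = exp (k * ((ℓ - 1 : ℕ) : ℤ)) := by
  have h1 : z ∈ closure (Set.range (algebraMap ℚ (Kl hζ))) := hz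
  have h2 : {y : Kl hζ | (V hζ) y = (V hζ) z} ∈ nhds z :=
    Valued.locally_const ((Valuation.ne_zero_iff (V hζ)).2 hz0)
  obtain ⟨y, hy1, ⟨q, rfl⟩⟩ := mem_closure_iff_nhds.1 h1 _ h2
  have hy1' : V hζ (algebraMap ℚ (Kl hζ) q) = V hζ z := hy1
  have hq : q ≠ 0 := by
    rintro rfl
    rw [map_zero, map_zero] at hy1'
    exact hz0 ((Valuation.zero_iff (V hζ)).1 hy1'.symm)
  obtain ⟨k, hk⟩ := V_rat hζ hq
  exact ⟨k, by rw [← hy1', hk]⟩

/-- the root of unity in the completion -/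
noncomputable def zz : Kl hζ := algebraMap K (Kl hζ) ζ

lemma zz_prim : IsPrimitiveRoot (zz hζ) ℓ := hζ.map_of_injective (algebraMap K (Kl hζ)).injective

/-- the valuation of `1 - ρ` -/
lemma V_one_sub {ρ : Kl hζ} (h1 : ρ ^ ℓ = 1) (h2 : ρ ≠ 1) : V hζ (1 - ρ) = exp (-1) := by
  obtain ⟨i, hi, rfl⟩ := (zz_prim hζ).eq_pow_of_pow_eq_one h1
  have h3 : hζ.toInteger ^ i ≠ hζ.toInteger ^ 0 := by
    intro h
    apply h2
    have h4 := congrArg (fun x : 𝓞 K => algebraMap K (Kl hζ) (algebraMap (𝓞 K) K x)) h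
    simp only [map_pow, pow_zero, map_one] at h4
    exact h4
  have h4 := diff_assoc hζ h3
  have h5 := lam_assoc (v := lam hζ) h4
  rw [lam_pi, ← V_int hζ] at h5
  have h6 : cm hζ (algebraMap (𝓞 K) K (hζ.toInteger ^ i - hζ.toInteger ^ 0)) =
      -(1 - zz hζ ^ i) := by
    rw [map_sub, map_sub, map_pow, map_pow, pow_zero, map_one, map_one, neg_sub]
    rfl
  rw [h6, Valuation.map_neg] at h5
  exact h5.symm

lemma zz_int : IsIntegral (Qc (lam hζ)) (zz hζ) := by
  refine ⟨X ^ ℓ - 1, monic_X_pow_sub_C 1 hp.out.ne_zero, ?_⟩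
  rw [eval₂_sub, eval₂_pow, eval₂_X, eval₂_one, (zz_prim hζ).pow_eq_one, sub_self]

/-- the minimal polynomial of the root of unity -/
lemma minpoly_zz : minpoly (Qc (lam hζ)) (zz hζ) = cyclotomic ℓ (Qc (lam hζ)) := by
  obtain ⟨m, hm⟩ : ∃ m, m = minpoly (Qc (lam hζ)) (zz hζ) := ⟨_, rfl⟩
  have hmon : m.Monic := by rw [hm]; exact minpoly.monic (zz_int hζ)
  have hdvd : m ∣ cyclotomic ℓ (Qc (lam hζ)) := by
    rw [hm]
    apply minpoly.dvd
    rw [aeval_def, eval₂_eq_eval_map, map_cyclotomic]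
    exact (zz_prim hζ).isRoot_cyclotomic hp.out.pos
  have hdeg1 : 1 ≤ m.natDegree := by rw [hm]; exact minpoly.natDegree_pos (zz_int hζ)
  have hdeg2 : m.natDegree ≤ ℓ - 1 := by
    have h1 := natDegree_le_of_dvd hdvd (cyclotomic_ne_zero _ _)
    rwa [natDegree_cyclotomic, Nat.totient_prime hp.out] at h1
  have hnz : NeZero (ℓ : Kl hζ) := ⟨fun h => by
    have h1 := V_ell hζ
    rw [h, map_zero] at h1
    exact exp_ne_zero h1.symm⟩
  -- splitting
  obtain ⟨M, hM⟩ : ∃ M : (Kl hζ)[X], M = m.map (algebraMap (Qc (lam hζ)) (Kl hζ)) := ⟨_, rfl⟩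
  have hMmon : M.Monic := by rw [hM]; exact hmon.map _
  have hMdvd : M ∣ cyclotomic ℓ (Kl hζ) := by
    rw [hM, ← map_cyclotomic ℓ (algebraMap (Qc (lam hζ)) (Kl hζ))]
    exact Polynomial.map_dvd _ hdvd
  have hspl : (cyclotomic ℓ (Kl hζ)).Splits := by
    have h1 := X_pow_sub_one_splits (zz_prim hζ)
    exact h1.of_dvd (X_pow_sub_C_ne_zero hp.out.pos 1) (by
      rw [map_one]
      exact cyclotomic.dvd_X_pow_sub_one ℓ (Kl hζ))
  have hMspl : M.Splits := hspl.of_dvd (cyclotomic_ne_zero _ _) hMdvd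
  have hMe : M = (M.roots.map fun a => X - C a).prod := hMspl.eq_prod_roots_of_monic hMmon
  have hcard : M.roots.card = m.natDegree := by
    rw [← hMspl.natDegree_eq_card_roots, hM, natDegree_map]
  have hval : V hζ (M.eval 1) = exp (-(m.natDegree : ℤ)) := by
    rw [hMe, eval_multiset_prod, Multiset.map_map, map_multiset_prod, Multiset.map_map]
    have h1 : M.roots.map (⇑(V hζ) ∘ ((fun p : (Kl hζ)[X] => eval 1 p) ∘ fun a => X - C a)) =
        M.roots.map fun _ => exp (-1 : ℤ) := by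
      apply Multiset.map_congr rfl
      intro a ha
      have h2 : a ∈ M.roots := ha
      rw [mem_roots hMmon.ne_zero] at h2
      have h3 : (cyclotomic ℓ (Kl hζ)).IsRoot a := h2.dvd hMdvd
      have h4 : IsPrimitiveRoot a ℓ := isRoot_cyclotomic_iff.1 h3
      simp only [Function.comp_apply, eval_sub, eval_X, eval_C]
      exact V_one_sub hζ h4.pow_eq_one (h4.ne_one hp.out.one_lt)
    rw [h1, Multiset.map_const', Multiset.prod_replicate, hcard, exp_pow]
    congr 1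
    ring
  have hev : M.eval 1 = ((m.eval 1 : Qc (lam hζ)) : Kl hζ) := by
    rw [hM, eval_one_map]
    rfl
  have hne : M.eval 1 ≠ 0 := by
    intro h
    rw [h, map_zero] at hval
    exact exp_ne_zero hval.symm
  obtain ⟨k, hk⟩ := V_L hζ (z := M.eval 1) (by rw [hev]; exact (m.eval 1).2) hne
  rw [hval, exp_inj] at hk
  have hdd : ((ℓ - 1 : ℕ) : ℤ) ∣ (m.natDegree : ℤ) := ⟨-k, by linarith⟩
  have hdd' : (ℓ - 1) ∣ m.natDegree := by exact_mod_cast hdd
  have hdeg3 : ℓ - 1 ≤ m.natDegree := Nat.le_of_dvd hdeg1 hdd'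
  rw [← hm]
  refine (eq_of_monic_of_dvd_of_natDegree_le hmon (cyclotomic.monic _ _) hdvd ?_).symm
  rw [natDegree_cyclotomic, Nat.totient_prime hp.out]
  exact hdeg3

/-- the completion is generated by the root of unity -/
lemma adj_top (w : Kl hζ) : w ∈ Algebra.adjoin (Qc (lam hζ)) {zz hζ} := by
  letI i1 : NontriviallyNormedField (Qc (lam hζ)) :=
    { (SubfieldClass.toNormedField (Qc (lam hζ)) : NormedField (Qc (lam hζ))) with
      non_trivial := by
        refine ⟨((ℓ : Qc (lam hζ)))⁻¹, ?_⟩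
        rw [norm_inv]
        have h1 : ‖(ℓ : Qc (lam hζ))‖ < 1 := by
          have h2 : ‖(ℓ : Kl hζ)‖ < 1 := by
            have h3 := Valued.toNormedField.norm_lt_one_iff (L := Kl hζ)
              (Γ₀ := WithZero (Multiplicative ℤ)) (x := (ℓ : Kl hζ))
            refine h3.2 ?_
            have h4 := V_ell hζ
            refine lt_of_eq_of_lt h4 ?_
            rw [← exp_zero, exp_lt_exp]
            have := hp.out.two_le
            omega
          exact h2
        have h5 : 0 < ‖(ℓ : Qc (lam hζ))‖ := by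
          rw [norm_pos_iff]
          intro h
          have h6 : (ℓ : Kl hζ) = 0 := congrArg Subtype.val h
          have h7 := V_ell hζ
          rw [h6, map_zero] at h7
          exact exp_ne_zero h7.symm
        exact one_lt_inv_iff₀.2 ⟨h5, h1⟩ }
  haveI i2 : CompleteSpace (Qc (lam hζ)) := by
    have h1 : IsClosed ((Qc (lam hζ) : Subfield (Kl hζ)) : Set (Kl hζ)) :=
      Subfield.isClosed_topologicalClosure _
    exact h1.completeSpace_coe
  haveI i3 : ContinuousSMul (Qc (lam hζ)) (Kl hζ) := ⟨by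
    have h1 : Continuous fun p : Qc (lam hζ) × Kl hζ => (p.1 : Kl hζ) * p.2 :=
      (continuous_subtype_val.comp continuous_fst).mul continuous_snd
    exact h1⟩
  haveI i4 : Module.Finite (Qc (lam hζ)) (Algebra.adjoin (Qc (lam hζ)) {zz hζ}) :=
    Algebra.finite_adjoin_simple_of_isIntegral (zz_int hζ)
  haveI i5 : FiniteDimensional (Qc (lam hζ))
      (Subalgebra.toSubmodule (Algebra.adjoin (Qc (lam hζ)) {zz hζ})) := i4
  have hcl : IsClosed ((Subalgebra.toSubmodule (Algebra.adjoin (Qc (lam hζ)) {zz hζ}) :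
      Submodule (Qc (lam hζ)) (Kl hζ)) : Set (Kl hζ)) :=
    Submodule.closed_of_finiteDimensional _
  have hK : ∀ k : K, algebraMap K (Kl hζ) k ∈ Algebra.adjoin (Qc (lam hζ)) {zz hζ} := by
    intro k
    have hadj : k ∈ Algebra.adjoin ℚ {ζ} := by
      have h1 := IsCyclotomicExtension.adjoin_primitive_root_eq_top (A := ℚ) (B := K) hζ
      rw [h1]
      exact Algebra.mem_top
    induction hadj using Algebra.adjoin_induction with
    | mem x hx =>
      rw [Set.mem_singleton_iff] at hx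
      rw [hx]
      exact Algebra.subset_adjoin rfl
    | algebraMap r =>
      have h1 : algebraMap K (Kl hζ) (algebraMap ℚ K r) = algebraMap ℚ (Kl hζ) r := by
        rw [← IsScalarTower.algebraMap_apply ℚ K (Kl hζ)]
      rw [h1]
      have h2 : algebraMap ℚ (Kl hζ) r ∈ Qc (lam hζ) :=
        Subfield.le_topologicalClosure _ ⟨r, rfl⟩
      exact (Algebra.adjoin (Qc (lam hζ)) {zz hζ}).algebraMap_mem ⟨_, h2⟩
    | add x y _ _ hx hy =>
      rw [map_add]
      exact add_mem hx hy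
    | mul x y _ _ hx hy =>
      rw [map_mul]
      exact mul_mem hx hy
  have hd := HeightOneSpectrum.denseRange_algebraMap (K := K) (lam hζ)
  have h1 : closure (Set.range (algebraMap K (Kl hζ))) ⊆
      ((Subalgebra.toSubmodule (Algebra.adjoin (Qc (lam hζ)) {zz hζ}) :
      Submodule (Qc (lam hζ)) (Kl hζ)) : Set (Kl hζ)) := by
    apply closure_minimal _ hcl
    rintro _ ⟨k, rfl⟩
    exact hK k
  exact h1 (hd w)

lemma alg : Algebra.IsAlgebraic (Qc (lam hζ)) (Kl hζ) := by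
  constructor
  intro w
  have h1 := adj_top hζ w
  have h2 : IsIntegral (Qc (lam hζ)) w := adjoin_le_integralClosure (zz_int hζ) h1
  exact h2.isAlgebraic

theorem cl : ∀ (K : Type) [Field K] [NumberField K] (ℓ : ℕ) [Fact ℓ.Prime]
    [IsCyclotomicExtension {ℓ} ℚ K] (ζ : K) (hζ : IsPrimitiveRoot ζ ℓ) (C : Type) [Field C]
    [Algebra (Kl hζ) C] [IsAlgClosure (Kl hζ) C] (r : ℕ), Nat.Coprime r ℓ →
    ∃ τ : C ≃ₐ[Qc (lam hζ)] C,
      τ (algebraMap (Kl hζ) C (algebraMap K (Kl hζ) ζ)) =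
        (algebraMap (Kl hζ) C (algebraMap K (Kl hζ) ζ)) ^ r := by
  intro K _ _ ℓ hp hK ζ hζ C _ _ hC r hr
  haveI h1 := alg hζ
  haveI h2 : Algebra.IsAlgebraic (Kl hζ) C := hC.isAlgebraic
  haveI h3 : IsAlgClosed C := hC.isAlgClosed
  haveI h4 : Algebra.IsAlgebraic (Qc (lam hζ)) C := Algebra.IsAlgebraic.trans _ (Kl hζ) _
  haveI h5 : IsAlgClosure (Qc (lam hζ)) C := ⟨h3, h4⟩
  haveI h6 : Normal (Qc (lam hζ)) C := IsAlgClosure.normal _ _
  refine minpoly.exists_algEquiv_of_root' (h4.isAlgebraic _) ?_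
  have h7 : minpoly (Qc (lam hζ)) (algebraMap (Kl hζ) C (zz hζ)) = cyclotomic ℓ (Qc (lam hζ)) := by
    rw [minpoly.algebraMap_eq (algebraMap (Kl hζ) C).injective, minpoly_zz]
  have h8 : algebraMap (Kl hζ) C (algebraMap K (Kl hζ) ζ) = algebraMap (Kl hζ) C (zz hζ) := rfl
  rw [h8, h7, aeval_def, eval₂_eq_eval_map, map_cyclotomic]
  have h9 : IsPrimitiveRoot (algebraMap (Kl hζ) C (zz hζ)) ℓ :=
    (zz_prim hζ).map_of_injective (algebraMap (Kl hζ) C).injective
  exact (h9.pow_of_coprime r hr).isRoot_cyclotomic hp.out.pos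

end Pool.Agent.Y678.FQ
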