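import Pool.Agent.Y158.FQ.Stm
import Pool.Agent.Y678.FQ.Loc

/-!
# Part CL of project FQ
-/

set_option autoImplicit false

namespace Pool.Agent.Y678.FQ

theorem t_CL : Pool.Agent.Y158.FQ.S_CL := by
  intro K _ _ ℓ _ _ ζ hζ C _ _ _ r hr
  exact cl K ℓ ζ hζ C r hr

end Pool.Agent.Y678.FQ
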